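import Pool.Agent.Q206.SO.Stm2

/-!
# The test `valid` recognises the descriptions of abelian cellular automata

The statement `S_vali` of `Pool.Agent.Q206.SO.Stm2`.
-/

set_option autoImplicit false

namespace Pool.Agent.Q110.SO

open Pool.Agent.Q206.SO

/-- The elements of the group: the numbers `0, …, n - 1`. -/
structure W (n : ℕ) : Type where
  /-- the number -/
  v : Fin n

theorem W.ext' {n : ℕ} {a b : W n} (h : (a.v : ℕ) = b.v) : a = b := by
  cases a
  cases b
  simp only [W.mk.injEq]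
  exact Fin.ext h

/-- The numbering. -/
def num (n : ℕ) : Fin n ≃ W n := ⟨W.mk, W.v, fun _ => rfl, fun _ => rfl⟩

/-- The meaning of `okTab`. -/
structure Tab (n : ℕ) (T : List (List ℕ)) : Prop where
  len : T.length = n
  row : ∀ row ∈ T, row.length = n ∧ ∀ a ∈ row, a < n
  comm : ∀ a < n, ∀ b < n, tab2 T a b = tab2 T b a
  assoc : ∀ a < n, ∀ b < n, ∀ c < n, tab2 T (tab2 T a b) c = tab2 T a (tab2 T b c)
  zero : ∃ o < n, ∀ a < n, tab2 T a o = a ∧ ∃ b < n, tab2 T a b = o

theorem okRow_iff {n : ℕ} {row : List ℕ} : okRow n row = true ↔ row.length = n ∧ ∀ a ∈ row, a < n := by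
  simp [okRow]

theorem okTab_iff {n : ℕ} {T : List (List ℕ)} : okTab n T = true ↔ Tab n T := by
  unfold okTab
  simp only [Bool.and_eq_true, List.all_eq_true, List.any_eq_true, decide_eq_true_eq,
    List.mem_range, okRow_iff]
  constructor
  · rintro ⟨⟨⟨h1, h2⟩, h3⟩, o, ho, h4⟩
    exact ⟨h1, h2, fun a ha b hb => (h3 a ha b hb).1, fun a ha b hb c hc => (h3 a ha b hb).2 c hc,
      o, ho, h4⟩
  · rintro ⟨h1, h2, h3, h4, o, ho, h5⟩
    exact ⟨⟨⟨h1, h2⟩, fun a ha b hb => ⟨h3 a ha b hb, h4 a ha b hb⟩⟩, o, ho, h5⟩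

theorem getD_lt {n : ℕ} {row : List ℕ} (h : row.length = n ∧ ∀ a ∈ row, a < n) {a : ℕ} (ha : a < n) :
    row.getD a 0 < n := by
  have hl : a < row.length := by rw [h.1]; exact ha
  rw [List.getD_eq_getElem _ _ hl]
  exact h.2 _ (List.getElem_mem hl)

theorem Tab.lt {n : ℕ} {T : List (List ℕ)} (h : Tab n T) {a b : ℕ} (ha : a < n) (hb : b < n) :
    tab2 T a b < n := by
  have hl : a < T.length := by rw [h.len]; exact ha
  unfold tab2
  rw [List.getD_eq_getElem _ _ hl]
  exact getD_lt (h.row _ (List.getElem_mem hl)) hb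

/-- The group. -/
theorem exists_group {n : ℕ} {T : List (List ℕ)} (h : Tab n T) :
    ∃ _G : AddCommGroup (W n), ∀ a b : W n, ((a + b).v : ℕ) = tab2 T a.v b.v := by
  obtain ⟨o, ho, hz⟩ := h.zero
  choose! neg hneg1 hneg2 using fun a ha => (hz a ha).2
  let _i1 : Add (W n) := ⟨fun a b => ⟨⟨tab2 T a.v b.v, h.lt a.v.2 b.v.2⟩⟩⟩
  let _i2 : Zero (W n) := ⟨⟨⟨o, ho⟩⟩⟩
  let _i3 : Neg (W n) := ⟨fun a => ⟨⟨neg a.v, hneg1 _ a.v.2⟩⟩⟩
  have hcomm : ∀ a b : W n, a + b = b + a := fun a b => W.ext' (h.comm _ a.v.2 _ b.v.2)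
  let G0 : AddGroup (W n) := AddGroup.ofLeftAxioms
    (fun a b c => W.ext' (h.assoc _ a.v.2 _ b.v.2 _ c.v.2))
    (fun a => by rw [hcomm]; exact W.ext' ((hz _ a.v.2).1))
    (fun a => by rw [hcomm]; exact W.ext' (hneg2 _ a.v.2))
  exact ⟨{ G0 with add_comm := hcomm }, fun a b => rfl⟩

theorem back {A : Type} [AddCommGroup A] {n : ℕ} (e : Fin n ≃ A) {r : ℕ}
    (h : Fin (2 * r + 1) → (A →+ A)) :
    (Tab n ((List.finRange n).map (fun a => (List.finRange n).map fun b =>
        (e.symm (e a + e b) : ℕ))) ∧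
      ((List.finRange (2 * r + 1)).map fun j => (List.finRange n).map fun a =>
        (e.symm (h j (e a)) : ℕ)).length = 2 * r + 1) ∧
    ∀ x ∈ ((List.finRange (2 * r + 1)).map fun j => (List.finRange n).map fun a =>
        (e.symm (h j (e a)) : ℕ)),
      okHom n ((List.finRange n).map (fun a => (List.finRange n).map fun b =>
        (e.symm (e a + e b) : ℕ))) x = true := by
  have htab : ∀ a b : Fin n, tab2 ((List.finRange n).map (fun a => (List.finRange n).map fun b =>
      (e.symm (e a + e b) : ℕ))) a b = (e.symm (e a + e b) : ℕ) := by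
    intro a b
    have e1 : ((List.finRange n).map (fun a => (List.finRange n).map fun b =>
        (e.symm (e a + e b) : ℕ))).getD a [] =
        (List.finRange n).map fun b => (e.symm (e a + e b) : ℕ) := by
      rw [List.getD_eq_getElem _ _ (by simp)]
      simp
    unfold tab2
    rw [e1, List.getD_eq_getElem _ _ (by simp)]
    simp
  have hrw : ∀ (g : Fin n → ℕ) (a : Fin n), ((List.finRange n).map g).getD a 0 = g a := by
    intro g a
    rw [List.getD_eq_getElem _ _ (by simp)]
    simp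
  refine ⟨⟨⟨by simp, ?_, ?_, ?_, ?_⟩, by simp⟩, ?_⟩
  · intro row hrow
    simp only [List.mem_map, List.mem_finRange, true_and] at hrow
    obtain ⟨a, rfl⟩ := hrow
    refine ⟨by simp, ?_⟩
    intro c hc
    simp only [List.mem_map, List.mem_finRange, true_and] at hc
    obtain ⟨b, rfl⟩ := hc
    exact Fin.is_lt _
  · intro a ha b hb
    have h3 := htab ⟨a, ha⟩ ⟨b, hb⟩
    have h4 := htab ⟨b, hb⟩ ⟨a, ha⟩
    simp only at h3 h4
    rw [h3, h4, add_comm]
  · intro a ha b hb c hc
    have h3 := htab ⟨a, ha⟩ ⟨b, hb⟩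
    have h4 := htab ⟨b, hb⟩ ⟨c, hc⟩
    simp only at h3 h4
    rw [h3, h4]
    have h5 := htab (e.symm (e ⟨a, ha⟩ + e ⟨b, hb⟩)) ⟨c, hc⟩
    have h6 := htab ⟨a, ha⟩ (e.symm (e ⟨b, hb⟩ + e ⟨c, hc⟩))
    simp only at h5 h6
    rw [h5, h6]
    simp [add_assoc]
  · refine ⟨e.symm 0, Fin.is_lt _, fun a ha => ⟨?_, e.symm (-e ⟨a, ha⟩), Fin.is_lt _, ?_⟩⟩
    · have h3 := htab ⟨a, ha⟩ (e.symm 0)
      simp only at h3
      rw [h3]
      simp
    · have h3 := htab ⟨a, ha⟩ (e.symm (-e ⟨a, ha⟩))
      simp only at h3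
      rw [h3]
      simp
  · intro row hrow
    simp only [List.mem_map, List.mem_finRange, true_and] at hrow
    obtain ⟨j, rfl⟩ := hrow
    unfold okHom
    simp only [Bool.and_eq_true, List.all_eq_true, decide_eq_true_eq, List.mem_range, okRow_iff]
    refine ⟨⟨by simp, ?_⟩, ?_⟩
    · intro c hc
      simp only [List.mem_map, List.mem_finRange, true_and] at hc
      obtain ⟨b, rfl⟩ := hc
      exact Fin.is_lt _
    · intro a ha b hb
      have h3 := htab ⟨a, ha⟩ ⟨b, hb⟩
      have h4 := hrw (fun a => (e.symm (h j (e a)) : ℕ)) ⟨a, ha⟩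
      have h5 := hrw (fun a => (e.symm (h j (e a)) : ℕ)) ⟨b, hb⟩
      simp only at h3 h4 h5
      rw [h3, h4, h5, hrw, htab]
      simp

theorem vali : S_vali := by
  rintro ⟨n, T, r, H⟩
  unfold valid
  simp only [Bool.and_eq_true, List.all_eq_true, decide_eq_true_eq, okTab_iff]
  constructor
  · rintro ⟨⟨hT, hH⟩, hr⟩
    have hrow : ∀ row ∈ H, (row.length = n ∧ ∀ a ∈ row, a < n) ∧ ∀ a < n, ∀ b < n,
        row.getD (tab2 T a b) 0 = tab2 T (row.getD a 0) (row.getD b 0) := by
      intro row hm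
      have h1 := hr row hm
      unfold okHom at h1
      simp only [Bool.and_eq_true, List.all_eq_true, decide_eq_true_eq, List.mem_range,
        okRow_iff] at h1
      exact h1
    obtain ⟨G, hG⟩ := exists_group hT
    have hHj : ∀ j : Fin (2 * r + 1), H[(j : ℕ)]'(by rw [hH]; exact j.2) ∈ H :=
      fun j => List.getElem_mem _
    let f0 : Fin (2 * r + 1) → W n → W n := fun j a =>
      ⟨⟨(H[(j : ℕ)]'(by rw [hH]; exact j.2)).getD a.v 0, getD_lt (hrow _ (hHj j)).1 a.v.2⟩⟩
    have hf0 : ∀ j a, ((f0 j a).v : ℕ) = (H[(j : ℕ)]'(by rw [hH]; exact j.2)).getD a.v 0 :=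
      fun j a => rfl
    let f : Fin (2 * r + 1) → (W n →+ W n) := fun j =>
      AddMonoidHom.mk' (f0 j) (fun a b => by
        apply W.ext'
        rw [hG, hf0, hf0, hf0, hG]
        exact (hrow _ (hHj j)).2 _ a.v.2 _ b.v.2)
    refine ⟨W n, G, n, num n, r, f, ?_⟩
    unfold code
    have hT2 : T = (List.finRange n).map (fun a => (List.finRange n).map fun b =>
        ((num n).symm (num n a + num n b) : ℕ)) := by
      apply List.ext_getElem
      · simp [hT.len]
      · intro a h1 h2
        have ha : a < n := by rw [← hT.len]; exact h1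
        apply List.ext_getElem
        · simp [(hT.row _ (List.getElem_mem h1)).1]
        · intro b h3 h4
          have hb : b < n := by rw [← (hT.row _ (List.getElem_mem h1)).1]; exact h3
          simp only [List.getElem_map, List.getElem_finRange]
          have e1 := hG (num n ⟨a, ha⟩) (num n ⟨b, hb⟩)
          refine Eq.trans ?_ e1.symm
          show _ = tab2 T a b
          unfold tab2
          rw [List.getD_eq_getElem _ _ h1, List.getD_eq_getElem _ _ h3]
    have hH2 : H = (List.finRange (2 * r + 1)).map fun j => (List.finRange n).map fun a =>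
        ((num n).symm (f j (num n a)) : ℕ) := by
      apply List.ext_getElem
      · simp [hH]
      · intro j h1 h2
        have hj : j < 2 * r + 1 := by rw [← hH]; exact h1
        apply List.ext_getElem
        · simp [(hrow _ (List.getElem_mem h1)).1.1]
        · intro b h3 h4
          have hb : b < n := by rw [← (hrow _ (List.getElem_mem h1)).1.1]; exact h3
          simp only [List.getElem_map, List.getElem_finRange]
          show _ = (H[j]'h1).getD b 0
          rw [List.getD_eq_getElem _ _ h3]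
    exact Prod.ext rfl (Prod.ext hT2 (Prod.ext rfl hH2))
  · rintro ⟨A, G, n', e, r', h, he⟩
    have h0 := back e h
    unfold code at he
    rw [Prod.mk.injEq, Prod.mk.injEq, Prod.mk.injEq] at he
    obtain ⟨rfl, e2, rfl, e4⟩ := he
    rw [← e2, ← e4] at h0
    exact h0

end Pool.Agent.Q110.SO
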